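import Pool.Agent.E8helper71.AZ.Fin
import Pool.Agent.E8helper42.AZ.Stm5

/-!
# Project AZ: the final algebra for `e` and two families
-/

set_option autoImplicit false

namespace Pool.Agent.E8helper77.AZ

open Pool.Agent.E8helper42.AZ Pool.Agent.E8helper71.AZ

theorem fgm : S_FGM := by
  classical
  intro σ σ' w z z' x y x' y' hI G hz0 hz0' S S'
  set G' : Set ℝ := {w} ∪ G ∪ (fun s => z * x s - y s) '' (S : Set σ) ∪
    (fun s => z' * x' s - y' s) '' (S' : Set σ') with hG'
  set K := IntermediateField.adjoin ℚ G' with hK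
  have hGK : G' ⊆ K := IntermediateField.subset_adjoin ℚ G'
  have htop : ∀ u : ℝ, IsAlgebraic (IntermediateField.adjoin ℚ ({w} ∪ G)) u → IsAlgebraic K u := by
    intro u hu
    have hle : IntermediateField.adjoin ℚ ({w} ∪ G) ≤ K :=
      IntermediateField.adjoin.mono ℚ _ G' (Set.subset_union_left.trans Set.subset_union_left)
    let _ : Algebra (IntermediateField.adjoin ℚ ({w} ∪ G)) K := (IntermediateField.inclusion hle).toAlgebra
    have : IsScalarTower (IntermediateField.adjoin ℚ ({w} ∪ G)) K ℝ :=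
      IsScalarTower.of_algebraMap_eq fun _ => rfl
    exact hu.tower_top K
  have hzK := htop z hz0
  have hzK' := htop z' hz0'
  set Xs : Set ℝ := x '' (S : Set σ) ∪ x' '' (S' : Set σ') with hXs
  set K' := IntermediateField.adjoin K (Xs ∪ {z, z'}) with hK'
  have hXK : Xs ∪ {z, z'} ⊆ K' := IntermediateField.subset_adjoin K _
  have hKK : ∀ u ∈ K, u ∈ K' := fun u hu => K'.algebraMap_mem ⟨u, hu⟩
  have hx : ∀ s ∈ S, x s ∈ K' := fun s hs => hXK (Or.inl (Or.inl ⟨s, hs, rfl⟩))
  have hx' : ∀ s ∈ S', x' s ∈ K' := fun s hs => hXK (Or.inl (Or.inr ⟨s, hs, rfl⟩))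
  have hz : z ∈ K' := hXK (Or.inr (Or.inl rfl))
  have hz' : z' ∈ K' := hXK (Or.inr (Or.inr rfl))
  have hw : w ∈ K' := hKK _ (hGK (Or.inl (Or.inl (Or.inl rfl))))
  have hy : ∀ s ∈ S, y s ∈ K' := by
    intro s hs
    have h1 : y s = z * x s - (z * x s - y s) := by ring
    rw [h1]
    refine K'.sub_mem (K'.mul_mem hz (hx s hs)) (hKK _ (hGK ?_))
    exact Or.inl (Or.inr ⟨s, hs, rfl⟩)
  have hy' : ∀ s ∈ S', y' s ∈ K' := by
    intro s hs
    have h1 : y' s = z' * x' s - (z' * x' s - y' s) := by ring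
    rw [h1]
    refine K'.sub_mem (K'.mul_mem hz' (hx' s hs)) (hKK _ (hGK ?_))
    exact Or.inr ⟨s, hs, rfl⟩
  have h1 : Algebra.trdeg K K' ≤ ((S.card + S'.card : ℕ) : Cardinal) := by
    refine (trdegA (Xs ∪ {z, z'}) Xs (by
      rintro g (hg | hg)
      · exact Or.inl hg
      · rcases hg with hg | hg
        · rw [hg]
          exact Or.inr hzK
        · rw [Set.mem_singleton_iff.mp hg]
          exact Or.inr hzK')).trans ?_
    refine (Cardinal.mk_union_le _ _).trans ?_
    rw [Nat.cast_add]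
    refine add_le_add ?_ ?_
    · exact Cardinal.mk_image_le.trans (Cardinal.mk_coe_finset).le
    · exact Cardinal.mk_image_le.trans (Cardinal.mk_coe_finset).le
  have h2 : ((S.card + S.card + (S'.card + S'.card) + 1 : ℕ) : Cardinal) ≤ Algebra.trdeg ℚ K' := by
    let v : Option ((S ⊕ S) ⊕ (S' ⊕ S')) → K' := fun o => o.elim ⟨w, hw⟩
      (Sum.elim (Sum.elim (fun p => ⟨x p.1, hx p.1 p.2⟩) (fun p => ⟨y p.1, hy p.1 p.2⟩))
        (Sum.elim (fun p => ⟨x' p.1, hx' p.1 p.2⟩) (fun p => ⟨y' p.1, hy' p.1 p.2⟩)))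
    have hv : AlgebraicIndependent ℚ v := by
      apply AlgebraicIndependent.of_comp (K'.val.restrictScalars ℚ)
      have h3 := hI.comp (Option.map (Sum.map (Sum.map (Subtype.val : S → σ) (Subtype.val : S → σ))
          (Sum.map (Subtype.val : S' → σ') (Subtype.val : S' → σ'))))
        (Option.map_injective ((Subtype.val_injective.sumMap Subtype.val_injective).sumMap
          (Subtype.val_injective.sumMap Subtype.val_injective)))
      convert h3 using 1
      funext u
      rcases u with _ | ((u | u) | (u | u))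
      all_goals rfl
    have h4 := hv.cardinalMk_le_trdeg
    have h5 : Cardinal.mk (Option ((S ⊕ S) ⊕ (S' ⊕ S'))) = ((S.card + S.card + (S'.card + S'.card) + 1 : ℕ) : Cardinal) := by
      rw [Cardinal.mk_fintype]
      congr 1
      rw [Fintype.card_option, Fintype.card_sum, Fintype.card_sum, Fintype.card_sum, Fintype.card_coe, Fintype.card_coe]
    rw [← h5]
    exact h4
  have f1 : FaithfulSMul K K' :=
    (faithfulSMul_iff_algebraMap_injective K K').mpr (algebraMap K K').injective
  have f2 : FaithfulSMul ℚ K :=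
    (faithfulSMul_iff_algebraMap_injective ℚ K).mpr (algebraMap ℚ K).injective
  have h3 : Algebra.trdeg ℚ K + Algebra.trdeg K K' = Algebra.trdeg ℚ K' :=
    trdeg_add_eq ℚ K
  by_contra hcon
  push Not at hcon
  obtain ⟨m, hm⟩ := Cardinal.lt_aleph0.mp (hcon.trans (Cardinal.natCast_lt_aleph0))
  obtain ⟨m', hm'⟩ := Cardinal.lt_aleph0.mp (h1.trans_lt (Cardinal.natCast_lt_aleph0))
  rw [hm] at hcon h3
  rw [hm'] at h1 h3
  rw [← h3] at h2
  have e1 : m < S.card + S'.card + 1 := by exact_mod_cast hcon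
  have e2 : m' ≤ S.card + S'.card := by exact_mod_cast h1
  have e3 : S.card + S.card + (S'.card + S'.card) + 1 ≤ m + m' := by exact_mod_cast h2
  omega

end Pool.Agent.E8helper77.AZ
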