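import Mathlib
import Pool.Agent.E8helper42.AZ.Stm4

/-!
# Project AZ: linear functionals for `ζ(2)`
-/

set_option autoImplicit false

namespace Pool.Agent.E8helper77.AZ

open Pool.Agent.E8helper42.AZ

lemma irr5 : Irrational √5 := by
  have h := Nat.Prime.irrational_sqrt (p := 5) (by norm_num)
  exact_mod_cast h

lemma li : LinearIndependent ℚ ![(-11 + 5 * √5) / 2, (-11 - 5 * √5) / 2] := by
  rw [LinearIndependent.pair_iff]
  intro s t h
  have h1 : (-(s : ℝ) * 11 - t * 11) + ((s : ℝ) * 5 - t * 5) * √5 = 0 := by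
    rw [Rat.smul_def, Rat.smul_def] at h
    linarith
  have h2 : s * 5 - t * 5 = 0 := by
    by_contra h3
    have h4 : √5 = (((s * 11 + t * 11) / (s * 5 - t * 5) : ℚ) : ℝ) := by
      have h5 : ((s * 5 - t * 5 : ℚ) : ℝ) ≠ 0 := by exact_mod_cast h3
      push_cast at h5 ⊢
      rw [eq_div_iff h5]
      linarith
    exact irr5 ⟨_, h4.symm⟩
  have h3 : ((s : ℝ) * 5 - t * 5) = 0 := by exact_mod_cast h2
  rw [h3, zero_mul, add_zero] at h1
  have h4 : -s * 11 - t * 11 = 0 := by exact_mod_cast h1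
  constructor <;> linarith

theorem kap3 : S_KAP3 := by
  have key : ∀ f : Fin 2 → ℚ, ∃ κ : ℝ →ₗ[ℚ] ℚ, κ ((-11 + 5 * √5) / 2) = f 0 ∧ κ ((-11 - 5 * √5) / 2) = f 1 := by
    intro f
    let b := Module.Basis.span li
    obtain ⟨κ, hκ⟩ := LinearMap.exists_extend (b.constr ℚ f)
    have h : ∀ i, κ (![(-11 + 5 * √5) / 2, (-11 - 5 * √5) / 2] i) = f i := by
      intro i
      have h1 : κ (b i : ℝ) = b.constr ℚ f (b i) := LinearMap.congr_fun hκ (b i)
      have h2 : (b i : ℝ) = ![(-11 + 5 * √5) / 2, (-11 - 5 * √5) / 2] i := congrArg Subtype.val (Module.Basis.span_apply li i)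
      rw [h2, b.constr_basis] at h1
      exact h1
    exact ⟨κ, h 0, h 1⟩
  exact ⟨key ![1, 0], key ![0, 1]⟩

end Pool.Agent.E8helper77.AZ
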