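import Mathlib
import Pool.Agent.E8helper42.AZ.Stm5

/-!
# Project AZ: the linear functional for `ζ(2)` and `ζ(3)` together
-/

set_option autoImplicit false

namespace Pool.Agent.E8helper77.AZ

open Pool.Agent.E8helper42.AZ

lemma irrM2 : Irrational √2 := irrational_sqrt_two

lemma irrM5 : Irrational √5 := by
  have h := Nat.Prime.irrational_sqrt (p := 5) (by norm_num)
  exact_mod_cast h

lemma irrM10 : Irrational √10 := by
  have h : Irrational √((10 : ℕ) : ℝ) := by
    rw [irrational_sqrt_natCast_iff]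
    rintro ⟨r, hr⟩
    have h4 : r < 4 := by nlinarith
    interval_cases r <;> omega
  exact_mod_cast h

lemma liM : LinearIndependent ℚ ![(1 : ℝ), √2, √5] := by
  rw [Fintype.linearIndependent_iff]
  intro g hg
  rw [Fin.sum_univ_three] at hg
  simp only [Matrix.cons_val_zero, Matrix.cons_val_one, Matrix.cons_val_two, Matrix.head_cons, Matrix.tail_cons,
    Rat.smul_def, mul_one] at hg
  set s := g 0
  set t := g 1
  set u := g 2
  have q2 : √2 * √2 = 2 := Real.mul_self_sqrt (by norm_num)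
  have q5 : √5 * √5 = 5 := Real.mul_self_sqrt (by norm_num)
  have e10 : √2 * √5 = √10 := by
    rw [← Real.sqrt_mul (by norm_num)]
    norm_num
  have key : (s : ℝ) ^ 2 + 2 * t ^ 2 - 5 * u ^ 2 + (2 * s * t) * √2 = 0 := by
    have h1 : (s : ℝ) + t * √2 = -(u * √5) := by linarith
    have h2 : ((s : ℝ) + t * √2) * (s + t * √2) = (u * √5) * (u * √5) := by rw [h1]; ring
    have h3 : ((s : ℝ) + t * √2) * (s + t * √2) = s ^ 2 + 2 * s * t * √2 + t ^ 2 * (√2 * √2) := by ring
    have h4 : ((u : ℝ) * √5) * (u * √5) = u ^ 2 * (√5 * √5) := by ring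
    rw [h3, h4, q2, q5] at h2
    linarith
  have hst : s * t = 0 := by
    by_contra h
    have h5 : ((2 * s * t : ℚ) : ℝ) ≠ 0 := by
      have : 2 * s * t ≠ 0 := by rw [mul_assoc]; exact mul_ne_zero two_ne_zero h
      exact_mod_cast this
    have h6 : √2 = ((-(s ^ 2 + 2 * t ^ 2 - 5 * u ^ 2) / (2 * s * t) : ℚ) : ℝ) := by
      push_cast at h5 ⊢
      rw [eq_div_iff h5]
      linarith
    exact irrM2 ⟨_, h6.symm⟩
  have htu : t = 0 ∧ u = 0 := by
    rcases mul_eq_zero.1 hst with hs | ht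
    · -- `s = 0`
      have hu : u = 0 := by
        by_contra hu
        have h7 : (t : ℝ) * √2 + u * √5 = 0 := by rw [hs] at hg; simpa using hg
        have h8 : (2 : ℝ) * t + u * √10 = 0 := by
          have : √2 * ((t : ℝ) * √2 + u * √5) = 0 := by rw [h7, mul_zero]
          have e : √2 * ((t : ℝ) * √2 + u * √5) = t * (√2 * √2) + u * (√2 * √5) := by ring
          rw [e, q2, e10] at this
          linarith
        have hu' : ((u : ℚ) : ℝ) ≠ 0 := by exact_mod_cast hu
        have h9 : √10 = ((-(2 * t) / u : ℚ) : ℝ) := by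
          push_cast
          rw [eq_div_iff hu']
          linarith
        exact irrM10 ⟨_, h9.symm⟩
      refine ⟨?_, hu⟩
      by_contra ht
      have h7 : (t : ℝ) * √2 = 0 := by rw [hs, hu] at hg; simpa using hg
      have ht' : ((t : ℚ) : ℝ) ≠ 0 := by exact_mod_cast ht
      have : √2 = 0 := by
        rcases mul_eq_zero.1 h7 with h | h
        · exact absurd h ht'
        · exact h
      rw [this] at q2
      norm_num at q2
    · refine ⟨ht, ?_⟩
      by_contra hu
      have h7 : (s : ℝ) + u * √5 = 0 := by rw [ht] at hg; simpa using hg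
      have hu' : ((u : ℚ) : ℝ) ≠ 0 := by exact_mod_cast hu
      have h9 : √5 = ((-s / u : ℚ) : ℝ) := by
        push_cast
        rw [eq_div_iff hu']
        linarith
      exact irrM5 ⟨_, h9.symm⟩
  obtain ⟨ht, hu⟩ := htu
  have hs : s = 0 := by
    rw [ht, hu] at hg
    simpa using hg
  intro i
  fin_cases i
  · exact hs
  · exact ht
  · exact hu

theorem kapm : S_KAPM := by
  let b := Module.Basis.span liM
  let f : Fin 3 → ℚ := ![0, 0, 2 / 5]
  obtain ⟨κ, hκ⟩ := LinearMap.exists_extend (b.constr ℚ f)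
  have h : ∀ i, κ (![(1 : ℝ), √2, √5] i) = f i := by
    intro i
    have h1 : κ (b i : ℝ) = b.constr ℚ f (b i) := LinearMap.congr_fun hκ (b i)
    have h2 : (b i : ℝ) = ![(1 : ℝ), √2, √5] i := congrArg Subtype.val (Module.Basis.span_apply liM i)
    rw [h2, b.constr_basis] at h1
    exact h1
  have k1 : κ 1 = 0 := h 0
  have k2 : κ √2 = 0 := h 1
  have k5 : κ √5 = 2 / 5 := h 2
  have sm : ∀ (q : ℚ) (x : ℝ), κ ((q : ℝ) * x) = q * κ x := by
    intro q x
    have := κ.map_smul q x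
    rwa [Rat.smul_def, smul_eq_mul] at this
  refine ⟨κ, ?_, ?_, ?_, ?_⟩
  · have e : (17 + 12 * √2 : ℝ) = ((17 : ℚ) : ℝ) * 1 + ((12 : ℚ) : ℝ) * √2 := by push_cast; ring
    rw [e, map_add, sm, sm, k1, k2]; norm_num
  · have e : (17 - 12 * √2 : ℝ) = ((17 : ℚ) : ℝ) * 1 + ((-12 : ℚ) : ℝ) * √2 := by push_cast; ring
    rw [e, map_add, sm, sm, k1, k2]; norm_num
  · have e : ((-11 + 5 * √5) / 2 : ℝ) = ((-11 / 2 : ℚ) : ℝ) * 1 + ((5 / 2 : ℚ) : ℝ) * √5 := by push_cast; ring
    rw [e, map_add, sm, sm, k1, k5]; norm_num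
  · have e : ((-11 - 5 * √5) / 2 : ℝ) = ((-11 / 2 : ℚ) : ℝ) * 1 + ((-5 / 2 : ℚ) : ℝ) * √5 := by push_cast; ring
    rw [e, map_add, sm, sm, k1, k5]; norm_num

end Pool.Agent.E8helper77.AZ
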