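import Mathlib
import Pool.Agent.E8helper42.AZ.Stm4
import Pool.Agent.E8helper20.AZ.Fub

/-!
# Project AZ: the exponential double integral for `ζ(2)`
-/

set_option autoImplicit false

namespace Pool.Agent.E8helper77.AZ

open MeasureTheory Set
open Pool.Agent.E8helper42.AZ Pool.Agent.E8helper20.AZ
open scoped Nat

/-- the kernel -/
noncomputable def K2 (p : ℝ × ℝ) : ℝ := 1 / (1 - p.1 * p.2)

lemma K2_meas : Measurable K2 := by unfold K2; fun_prop

lemma den2_pos {x y : ℝ} (hx : x ∈ Ioo (0 : ℝ) 1) (hy : y ∈ Ioo (0 : ℝ) 1) : 0 < 1 - x * y := by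
  nlinarith [hx.1, hx.2, hy.1, hy.2]

lemma K2_pos {x y : ℝ} (hx : x ∈ Ioo (0 : ℝ) 1) (hy : y ∈ Ioo (0 : ℝ) 1) : 0 < K2 (x, y) := by
  have := den2_pos hx hy
  unfold K2
  positivity

lemma K2_le {x y : ℝ} (hx : x ∈ Ioo (0 : ℝ) 1) (hy : y ∈ Ioo (0 : ℝ) 1) :
    K2 (x, y) ≤ (1 - x) ^ (-(1 / 2) : ℝ) * (1 - y) ^ (-(1 / 2) : ℝ) := by
  have hx1 : 0 < 1 - x := by linarith [hx.2]
  have hy1 : 0 < 1 - y := by linarith [hy.2]
  have hd := den2_pos hx hy
  have e : ∀ {t : ℝ}, 0 < t → t ^ (-(1 / 2) : ℝ) = 1 / Real.sqrt t := fun {t} ht => by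
    rw [Real.rpow_neg ht.le, Real.sqrt_eq_rpow]
    exact (one_div _).symm
  unfold K2
  simp only
  rw [e hx1, e hy1]
  set a := Real.sqrt (1 - x) with ha
  set b := Real.sqrt (1 - y) with hb
  have ha0 : 0 < a := Real.sqrt_pos.2 hx1
  have hb0 : 0 < b := Real.sqrt_pos.2 hy1
  have ha2 : a ^ 2 = 1 - x := Real.sq_sqrt hx1.le
  have hb2 : b ^ 2 = 1 - y := Real.sq_sqrt hy1.le
  have key : 1 - x * y = a ^ 2 + b ^ 2 - a ^ 2 * b ^ 2 := by
    rw [ha2, hb2]
    ring
  have ha1 : a ^ 2 ≤ 1 := by rw [ha2]; linarith [hx.1]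
  have hb1 : b ^ 2 ≤ 1 := by rw [hb2]; linarith [hy.1]
  have h1 : a * b ≤ 1 - x * y := by
    rw [key]
    rcases le_total a b with h | h
    · nlinarith [mul_nonneg (sq_nonneg a) (sub_nonneg.2 hb1), mul_le_mul_of_nonneg_right h hb0.le]
    · nlinarith [mul_nonneg (sq_nonneg b) (sub_nonneg.2 ha1), mul_le_mul_of_nonneg_left h ha0.le]
  have h2 : 1 / a * (1 / b) = 1 / (a * b) := by field_simp
  rw [h2]
  exact one_div_le_one_div_of_le (by positivity) h1

lemma K2_int : Integrable K2 (U.prod U) := by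
  refine (rpow_int'.mul_prod rpow_int').mono' K2_meas.aestronglyMeasurable ?_
  filter_upwards [ae_S] with p hp
  obtain ⟨x, y⟩ := p
  rw [Real.norm_of_nonneg (K2_pos hp.1 hp.2).le]
  exact K2_le hp.1 hp.2

lemma beu2_mem {x y : ℝ} (hx : x ∈ Ioo (0 : ℝ) 1) (hy : y ∈ Ioo (0 : ℝ) 1) : |beu2 x y| ≤ 1 := by
  have hd := den2_pos hx hy
  have hx1 : 0 < 1 - x := by linarith [hx.2]
  have hy1 : 0 < 1 - y := by linarith [hy.2]
  have hx0 := hx.1
  have hy0 := hy.1
  have h0 : 0 ≤ beu2 x y := by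
    unfold beu2
    positivity
  rw [abs_of_nonneg h0]
  unfold beu2
  rw [div_le_one hd]
  have h1 : x * y * (1 - x) * (1 - y) ≤ (1 - x) * 1 := by
    have : x * y * (1 - y) ≤ 1 := by
      have h2 : x * y ≤ 1 := by nlinarith
      have h3 : 1 - y ≤ 1 := by linarith
      calc x * y * (1 - y) ≤ 1 * 1 := by gcongr
        _ = 1 := by ring
    nlinarith
  nlinarith

lemma beu2_meas : Measurable fun p : ℝ × ℝ => beu2 p.1 p.2 := by
  unfold beu2
  fun_prop

theorem beu3 : S_BEU3 := by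
  intro j t
  rw [← S_eq]
  set f : ℕ → ℝ × ℝ → ℝ := fun n p =>
    beu2 p.1 p.2 ^ (n + j) * t ^ n / (n.factorial : ℝ) * K2 p with hf
  have hbd : ∀ n, ∀ x ∈ Ioo (0 : ℝ) 1, ∀ y ∈ Ioo (0 : ℝ) 1,
      |f n (x, y)| ≤ |t| ^ n / (n ! : ℝ) * K2 (x, y) := by
    intro n x hx y hy
    have hK := K2_pos hx hy
    have hb := beu2_mem hx hy
    simp only [hf]
    rw [abs_mul, abs_of_pos hK, abs_div, abs_mul, abs_pow, abs_pow, Nat.abs_cast]
    have h1 : |beu2 x y| ^ (n + j) ≤ 1 := pow_le_one₀ (abs_nonneg _) hb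
    have h2 : |beu2 x y| ^ (n + j) * |t| ^ n ≤ |t| ^ n := by
      calc _ ≤ 1 * |t| ^ n := mul_le_mul_of_nonneg_right h1 (by positivity)
        _ = _ := one_mul _
    gcongr
  have hmeas : ∀ n, Measurable (f n) := fun n =>
    ((beu2_meas.pow_const (n + j)).mul_const (t ^ n) |>.div_const _).mul K2_meas
  have hint : ∀ n, Integrable (f n) (U.prod U) := fun n => by
    refine (K2_int.const_mul (|t| ^ n / (n ! : ℝ))).mono' (hmeas n).aestronglyMeasurable ?_
    filter_upwards [ae_S] with p hp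
    obtain ⟨x, y⟩ := p
    exact hbd n x hp.1 y hp.2
  have hsum : Summable fun n => ∫ p, ‖f n p‖ ∂(U.prod U) := by
    refine Summable.of_nonneg_of_le (fun n => integral_nonneg fun p => norm_nonneg _) (fun n => ?_)
      ((Real.summable_pow_div_factorial |t|).mul_right (∫ p, K2 p ∂(U.prod U)))
    rw [← MeasureTheory.integral_const_mul]
    refine integral_mono_ae (hint n).norm (K2_int.const_mul _) ?_
    filter_upwards [ae_S] with p hp
    obtain ⟨x, y⟩ := p
    exact hbd n x hp.1 y hp.2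
  have h := integral_tsum_of_summable_integral_norm hint hsum
  have e1 : ∀ n, ∫ p, f n p ∂(U.prod U) = Jn2 (n + j) * t ^ n / (n.factorial : ℝ) := by
    intro n
    have : ∀ p : ℝ × ℝ, f n p = (t ^ n / (n.factorial : ℝ)) *
        (beu2 p.1 p.2 ^ (n + j) / (1 - p.1 * p.2)) := fun p => by
      simp only [hf]
      unfold K2
      ring
    simp only [this]
    rw [MeasureTheory.integral_const_mul, S_eq]
    unfold Jn2
    ring
  simp only [e1] at h
  rw [h]
  refine integral_congr_ae (Filter.Eventually.of_forall fun p => ?_)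
  simp only [hf]
  rw [tsum_mul_right]
  have h3 : ∑' n : ℕ, beu2 p.1 p.2 ^ (n + j) * t ^ n / (n.factorial : ℝ) =
      beu2 p.1 p.2 ^ j * Real.exp (t * beu2 p.1 p.2) := by
    rw [Real.exp_eq_exp_ℝ, NormedSpace.exp_eq_tsum_div, ← tsum_mul_left]
    refine tsum_congr fun n => ?_
    rw [pow_add, mul_pow]
    ring
  rw [h3]
  unfold K2
  ring

end Pool.Agent.E8helper77.AZ
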